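import Pool.Agent.R537.LR.Defs

/-!
# Low-rank approximation: the statements of the pieces
-/

set_option autoImplicit false

namespace Pool.Agent.NPC.R537LR

open Pool.Agent.NPC Pool.Agent.NPC.ER

/-! ### `p = 0` -/

/-- Exact completions. -/
def S_EXA : Prop := ∀ (n : ℕ) (G : List Gate), (∀ g ∈ G, GLt n g) →
  ((∃ B, Compl (rowsL n) (colsL n G) B) ↔ ∃ v : ℕ → ℝ, ∀ g ∈ G, GHolds v g)

/-- Cauchy matrices of size 4 are nonsingular. -/
def S_CAU : Prop := ∀ x y : Fin 4 → ℕ, Function.Injective x → Function.Injective y →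
  (Matrix.of fun i j => (1 : ℝ) / ((x i : ℝ) + (y j : ℝ) + 1)).det ≠ 0

/-- A set of positions without a complete `4 × 4` pattern is small. -/
def S_KST : Prop := ∀ (T : ℕ) (G : Finset (Fin T × Fin T)),
  (∀ f g : Fin 4 → Fin T, Function.Injective f → Function.Injective g → ∃ i j, (f i, g j) ∉ G) →
  G.card ^ 4 ≤ 9 * T ^ 7

/-- The blow-up for `p = 0`. -/
def S_BL0 : Prop := ∀ (I J : Type) [Fintype I] [Fintype J] [DecidableEq I] [DecidableEq J]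
  (E : I → J → Option ℝ) (T : ℕ) (A : Matrix (I × Fin T) (J × Fin T) ℝ) (u : ℕ),
  (∀ i j a b q, E i j = some q → A (i, a) (j, b) = q) →
  (∀ i j a b, E i j = none → A (i, a) (j, b) = 1 / ((a : ℕ) + (b : ℕ) + 1 : ℝ)) →
  (u = ∑ i, ∑ j, if E i j = none then 1 else 0) →
  9 * (Fintype.card I * Fintype.card J) ^ 4 < T →
  ((∃ B : Matrix (I × Fin T) (J × Fin T) ℝ, B.rank ≤ 3 ∧ dist0 A B < (u * T ^ 2 + 1 : ℕ)) ↔
    ∃ B : Matrix I J ℝ, B.rank ≤ 3 ∧ ∀ i j q, E i j = some q → B i j = q)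

/-- Block matrices. -/
def S_LR : Prop := ∀ (ρ κ : Type) (T : ℕ) (f : ρ → κ → ℕ → ℕ → ℚ) (R : List ρ) (C : List κ) (k N : ℕ),
  0 < T → 0 < R.length → 0 < N →
  (LRA0 (blk T f R C, k, (N : ℚ)) ↔
    ∃ B : Matrix (Fin R.length × Fin T) (Fin C.length × Fin T) ℝ, B.rank ≤ k ∧
      dist0 (Matrix.of fun x y => ((f (R.get x.1) (C.get y.1) x.2 y.2 : ℚ) : ℝ)) B < N) ∧
  (LRA1 (blk T f R C, k, (N : ℚ)) ↔
    ∃ B : Matrix (Fin R.length × Fin T) (Fin C.length × Fin T) ℝ, B.rank ≤ k ∧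
      dist1 (Matrix.of fun x y => ((f (R.get x.1) (C.get y.1) x.2 y.2 : ℚ) : ℝ)) B < N)

/-- Double sums over lists. -/
def S_SUM : Prop := ∀ (ρ κ : Type) (R : List ρ) (C : List κ) (g : ρ → κ → ℕ),
  (R.flatMap fun r => C.map fun c => g r c).sum =
    ∑ i : Fin R.length, ∑ j : Fin C.length, g (R.get i) (C.get j)

/-- The gates of a system. -/
def S_GC : Prop := ∀ S : List ER.Con, (Sat S ↔ ∃ v : ℕ → ℝ, ∀ g ∈ G0 S, GHolds v g) ∧
  ∀ g ∈ G0 S, GLt (n0 S) g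

/-- Block matrices are computable in polynomial time. -/
def S_PB : Prop := ∀ (α ρ κ : Type) [TEnc α] [TEnc ρ] [TEnc κ] (T : α → ℕ)
  (f : α → ρ → κ → ℕ → ℕ → ℚ) (R : α → List ρ) (C : α → List κ), UPoly T → Poly R → Poly C →
  Poly (fun x : α × ρ × κ × ℕ × ℕ => f x.1 x.2.1 x.2.2.1 x.2.2.2.1 x.2.2.2.2) →
  Poly (fun a => blk (T a) (f a) (R a) (C a))

/-- The rows, the columns and the known entries are computable in polynomial time. -/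
def S_PC : Prop := (∀ (α : Type) [TEnc α] (n : α → ℕ), UPoly n → Poly (fun a => rowsL (n a))) ∧
  (∀ (α : Type) [TEnc α] (n : α → ℕ) (G : α → List Gate), UPoly n → Poly G →
    Poly (fun a => colsL (n a) (G a))) ∧
  Poly (fun x : RName × Col => ent x.1 x.2) ∧ Poly (fun x : RName × Col => ent1 x.1 x.2)

/-- The reduction for `p = 0` is computable in polynomial time. -/
def S_P0 : Prop := Poly F0

/-- Correctness of the reduction for `p = 0`. -/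
def S_C0 : Prop := ∀ S : List ER.Con, Sat S ↔ LRA0 (F0 S)

/-- Membership. -/
def S_MEM0 : Prop := InER (lang LRA0)

/-- Membership. -/
def S_MEM1 : Prop := InER (lang LRA1)

/-! ### `p = 1` -/

/-- The Hadamard matrices. -/
def S_HAD : Prop := ∀ t : ℕ, GoodH (2 ^ (t + 1)) (fun a b => (had a b : ℝ))

/-- The straight-line program: from a system to values. -/
def S_SRC1 : Prop := ∀ S : List ER.Con, Sat S → ∃ v : ℕ → ℝ, (∀ i < n1 S, |v i| ≤ 1) ∧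
  (∀ g ∈ prog S, GHolds v g) ∧ 0 < v (n1 S - 1)

/-- The straight-line program: from values to the system. -/
def S_SRC2 : Prop := ∀ (S : List ER.Con) (v : ℕ → ℝ), (∀ i < n1 S, |v i| ≤ 1) →
  (∀ g ∈ prog S, GHolds v g) → 0 < v (n1 S - 1) → Sat S

/-- The straight-line program is feed-forward. -/
def S_FF : Prop := ∀ S : List ER.Con, FF (n1 S) (prog S) ∧ ∀ g ∈ prog S, GLt (n1 S) g

/-- Repair of approximate values. -/
def S_SLP : Prop := ∀ (n : ℕ) (G : List Gate) (X : ℕ → ℝ) (θ K : ℝ), FF n G → 0 ≤ θ → θ ≤ 1 →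
  1 ≤ K → (∀ i < n, |X i| ≤ 1 + θ) → (∀ g ∈ G, GErr X g ≤ K * θ) →
  ∃ v : ℕ → ℝ, (∀ i < n, |v i| ≤ 1) ∧ (∀ g ∈ G, GHolds v g) ∧ ∀ i < n, |X i - v i| ≤ K * 4 ^ i * θ

/-- The pattern of the lists. -/
def S_PT : Prop := ∀ (n : ℕ) (G : List Gate) (y : ℕ), (∀ g ∈ G, GLt n g) →
  (∀ g ∈ G, g.1 = 1 → |g.2.2.2.2| ≤ 8) → y < n →
  ∃ P : Pt (Fin (rowsL n).length) (Fin (colsL1 n G y).length), Cpt n G y P

/-- From approximate solutions of rank three to approximate values. -/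
def S_REP : Prop := ∀ (n : ℕ) (G : List Gate) (y : ℕ)
  (P : Pt (Fin (rowsL n).length) (Fin (colsL1 n G y).length)) (Q : ℝ) (p : _ → Fin 3 → ℝ)
  (l : _ → Fin 3 → ℝ) (M : ℝ), Cpt n G y P → (∀ g ∈ G, GLt n g) →
  (∀ g ∈ G, g.1 = 1 → |g.2.2.2.2| ≤ 8) → y < n → 2 ^ 12 ≤ Q → P.Appr Q p l M →
  ∃ X : ℕ → ℝ, (∀ i < n, |X i| ≤ 1 + (4 / 3) * M / Q) ∧
    (∀ g ∈ G, GErr X g ≤ 200 * ((4 / 3) * M / Q)) ∧ M - 200 * ((4 / 3) * M / Q) ≤ X y

/-- From values to an exact solution of rank three. -/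
def S_YESC : Prop := ∀ (n : ℕ) (G : List Gate) (y : ℕ)
  (P : Pt (Fin (rowsL n).length) (Fin (colsL1 n G y).length)) (v : ℕ → ℝ), Cpt n G y P →
  (∀ g ∈ G, GLt n g) → y < n → (∀ i < n, |v i| ≤ 1) → (∀ g ∈ G, GHolds v g) → 0 < v y →
  ∃ (p : Fin (rowsL n).length → Fin 3 → ℝ) (l : Fin (colsL1 n G y).length → Fin 3 → ℝ),
    (∀ r c x, ¬ (r = P.ro ∧ c = P.co) → P.E r c = some x → x = ∑ s, p r s * l c s) ∧
    0 < ∑ s, p P.ro s * l P.co s ∧ ∑ s, p P.ro s * l P.co s ≤ 1 ∧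
    ∀ r c, P.E r c = none → |∑ s, p r s * l c s| ≤ P.N r c

/-- From exact solutions to matrices of small cost. -/
def S_YES : Prop := ∀ (R C : Type) [Fintype R] [Fintype C] [DecidableEq R] [DecidableEq C]
  (P : Pt R C) (m : ℕ) (H : ℕ → ℕ → ℝ) (W Q : ℝ) (p : R → Fin 3 → ℝ) (l : C → Fin 3 → ℝ),
  P.OK → GoodH m H → 0 < m → 0 < W → 0 < Q →
  (∀ r c x, ¬ (r = P.ro ∧ c = P.co) → P.E r c = some x → x = ∑ s, p r s * l c s) →
  0 < ∑ s, p P.ro s * l P.co s → ∑ s, p P.ro s * l P.co s ≤ 1 →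
  (∀ r c, P.E r c = none → |∑ s, p r s * l c s| ≤ P.N r c) →
  P.cost m H W Q (fun r _ c _ => ∑ s, p r s * l c s) < P.base m W Q

/-- Normalized factorization. -/
def S_NOA : Prop := ∀ (R C : Type) [Fintype R] [Fintype C] [DecidableEq R] [DecidableEq C]
  (P : Pt R C) (m : ℕ) (H : ℕ → ℕ → ℝ) (W Q : ℝ) (X : R → Fin m → C → Fin m → ℝ),
  P.OK → GoodH m H → Big (Fintype.card R * Fintype.card C) m W Q →
  (Matrix.of fun (x : R × Fin m) (y : C × Fin m) => X x.1 x.2 y.1 y.2).rank ≤ 3 →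
  P.cost m H W Q X < P.base m W Q →
  ∃ (p : R → Fin m → Fin 3 → ℝ) (l : C → Fin m → Fin 3 → ℝ),
    (∀ r a c b, X r a c b = ∑ s, p r a s * l c b s) ∧
    ∀ j s, mean l (P.ac j) s = if j = s then 1 else 0

/-- A priori bounds, first step: all the excesses are bounded independently of `W`. -/
def S_NOB1 : Prop := ∀ (R C : Type) [Fintype R] [Fintype C] [DecidableEq R] [DecidableEq C]
  (P : Pt R C) (m n : ℕ) (H : ℕ → ℕ → ℝ) (W Q : ℝ) (p : R → Fin m → Fin 3 → ℝ)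
  (l : C → Fin m → Fin 3 → ℝ),
  P.OK → GoodH m H → n = Fintype.card R * Fintype.card C → Big n m W Q →
  (∀ j s, mean l (P.ac j) s = if j = s then 1 else 0) →
  P.cost m H W Q (fun r a c b => ∑ s, p r a s * l c b s) < P.base m W Q →
  (∀ r c x, ¬ (r = P.ro ∧ c = P.co) → P.E r c = some x →
    P.w W Q r c * ∑ a : Fin m, ∑ b : Fin m, |x - ∑ s, p r a s * l c b s| ≤
      256 * n ^ 3 * m ^ 2 * Q) ∧
  (∀ r c, P.E r c = none →
    P.w W Q r c * (∑ a : Fin m, ∑ b : Fin m, |P.N r c * H a b - ∑ s, p r a s * l c b s| -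
      P.N r c * m ^ 2) ≤ 256 * n ^ 3 * m ^ 2 * Q) ∧
  (∀ r j, ∑ a : Fin m, |∑ b : Fin m, H a b * ∑ s, p r a s * l (P.ac j) b s| ≤
    256 * n ^ 2 * m ^ 2 / W) ∧
  (∀ i c, P.tC c = none → c ≠ P.co →
    ∑ b : Fin m, |∑ a : Fin m, H a b * ∑ s, p (P.ar i) a s * l c b s| ≤ 256 * n ^ 2 * m ^ 2 / W)

/-- A priori bounds, second step. -/
def S_NOB2 : Prop := ∀ (R C : Type) [Fintype R] [Fintype C] [DecidableEq R] [DecidableEq C]
  (P : Pt R C) (m n : ℕ) (H : ℕ → ℕ → ℝ) (W Q : ℝ) (p : R → Fin m → Fin 3 → ℝ)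
  (l : C → Fin m → Fin 3 → ℝ),
  P.OK → GoodH m H → Big n m W Q →
  (∀ j s, mean l (P.ac j) s = if j = s then 1 else 0) →
  (∀ r c x, ¬ (r = P.ro ∧ c = P.co) → P.E r c = some x →
    P.w W Q r c * ∑ a : Fin m, ∑ b : Fin m, |x - ∑ s, p r a s * l c b s| ≤
      256 * n ^ 3 * m ^ 2 * Q) →
  (∀ r c, P.E r c = none →
    P.w W Q r c * (∑ a : Fin m, ∑ b : Fin m, |P.N r c * H a b - ∑ s, p r a s * l c b s| -
      P.N r c * m ^ 2) ≤ 256 * n ^ 3 * m ^ 2 * Q) →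
  (∀ r j, ∑ a : Fin m, |∑ b : Fin m, H a b * ∑ s, p r a s * l (P.ac j) b s| ≤
    256 * n ^ 2 * m ^ 2 / W) →
  (∀ i c, P.tC c = none → c ≠ P.co →
    ∑ b : Fin m, |∑ a : Fin m, H a b * ∑ s, p (P.ar i) a s * l c b s| ≤
      256 * n ^ 2 * m ^ 2 / W) →
  P.Bd m p l

/-- The spread of the copies of a row. -/
def S_NOC : Prop := ∀ (R C : Type) [Fintype R] [Fintype C] [DecidableEq R] [DecidableEq C]
  (P : Pt R C) (m : ℕ) (W Q : ℝ) (p : R → Fin m → Fin 3 → ℝ) (l : C → Fin m → Fin 3 → ℝ),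
  P.OK → 0 < m → 1 ≤ W → 1 ≤ Q → P.Bd m p l → ∀ r, P.tR r = none →
  Q * ∑ a, ∑ s, |p r a s - mean p r s| ≤ 7 / m * ∑ c, P.w W Q r c * P.dk m p l r c

/-- The spread of the copies of a column. -/
def S_NOD : Prop := ∀ (R C : Type) [Fintype R] [Fintype C] [DecidableEq R] [DecidableEq C]
  (P : Pt R C) (m : ℕ) (W Q : ℝ) (p : R → Fin m → Fin 3 → ℝ) (l : C → Fin m → Fin 3 → ℝ),
  P.OK → 0 < m → 1 ≤ W → 1 ≤ Q → P.Bd m p l → ∀ c, P.tC c = none →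
  (if c = P.co then 1 else Q) * ∑ b, ∑ s, |l c b s - mean l c s| ≤
    24 / m * ∑ r, P.w W Q r c * P.dk m p l r c

/-- The masks between ordinary rows and ordinary columns. -/
def S_NOE : Prop := ∀ (R C : Type) [Fintype R] [Fintype C] [DecidableEq R] [DecidableEq C]
  (P : Pt R C) (m : ℕ) (H : ℕ → ℕ → ℝ) (p : R → Fin m → Fin 3 → ℝ) (l : C → Fin m → Fin 3 → ℝ),
  GoodH m H → 0 < m → P.Bd m p l → ∀ r c,
  |∑ a : Fin m, ∑ b : Fin m, H a b * ∑ s, p r a s * l c b s| ≤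
    2 * √(2 * m) * (∑ a, ∑ s, |p r a s - mean p r s| + ∑ b, ∑ s, |l c b s - mean l c s|)

/-- The masks with an anchor. -/
def S_NOF : Prop := ∀ (R C : Type) [Fintype R] [Fintype C] [DecidableEq R] [DecidableEq C]
  (P : Pt R C) (m : ℕ) (H : ℕ → ℕ → ℝ) (p : R → Fin m → Fin 3 → ℝ) (l : C → Fin m → Fin 3 → ℝ),
  P.OK → GoodH m H → 0 < m → P.Bd m p l →
  (∀ r j, |∑ a : Fin m, ∑ b : Fin m, H a b * ∑ s, p r a s * l (P.ac j) b s| ≤
    32 * ∑ i, P.dk m p l (P.ar i) (P.ac j)) ∧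
  (∀ i c, |∑ a : Fin m, ∑ b : Fin m, H a b * ∑ s, p (P.ar i) a s * l c b s| ≤
    32 * ∑ j, P.dk m p l (P.ar i) (P.ac j))

/-- Conclusion of the analysis. -/
def S_NOG : Prop := ∀ (R C : Type) [Fintype R] [Fintype C] [DecidableEq R] [DecidableEq C]
  (P : Pt R C) (m : ℕ) (H : ℕ → ℕ → ℝ) (W Q : ℝ) (p : R → Fin m → Fin 3 → ℝ)
  (l : C → Fin m → Fin 3 → ℝ),
  P.OK → GoodH m H → Big (Fintype.card R * Fintype.card C) m W Q → P.Bd m p l →
  P.cost m H W Q (fun r a c b => ∑ s, p r a s * l c b s) < P.base m W Q →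
  (∀ r, P.tR r = none →
    Q * ∑ a, ∑ s, |p r a s - mean p r s| ≤ 7 / m * ∑ c, P.w W Q r c * P.dk m p l r c) →
  (∀ c, P.tC c = none → (if c = P.co then 1 else Q) * ∑ b, ∑ s, |l c b s - mean l c s| ≤
    24 / m * ∑ r, P.w W Q r c * P.dk m p l r c) →
  (∀ r c, |∑ a : Fin m, ∑ b : Fin m, H a b * ∑ s, p r a s * l c b s| ≤
    2 * √(2 * m) * (∑ a, ∑ s, |p r a s - mean p r s| + ∑ b, ∑ s, |l c b s - mean l c s|)) →
  (∀ r j, |∑ a : Fin m, ∑ b : Fin m, H a b * ∑ s, p r a s * l (P.ac j) b s| ≤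
    32 * ∑ i, P.dk m p l (P.ar i) (P.ac j)) →
  (∀ i c, |∑ a : Fin m, ∑ b : Fin m, H a b * ∑ s, p (P.ar i) a s * l c b s| ≤
    32 * ∑ j, P.dk m p l (P.ar i) (P.ac j)) →
  P.Appr Q (mean p) (mean l) (∑ s, mean p P.ro s * mean l P.co s)

/-- The reduction for `p = 1` is computable in polynomial time. -/
def S_P1 : Prop := Poly F1

/-- The cost of a matrix in the reduction for `p = 1`. -/
def S_C1 : Prop := ∀ (S : List ER.Con)
  (P : Pt (Fin (rowsL (n1 S)).length) (Fin (colsL1 (n1 S) (prog S) (n1 S - 1)).length)),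
  Cpt (n1 S) (prog S) (n1 S - 1) P → S_LR → S_SUM →
  (LRA1 (F1 S) ↔ ∃ X : Fin (rowsL (n1 S)).length → Fin (m1 S) →
    Fin (colsL1 (n1 S) (prog S) (n1 S - 1)).length → Fin (m1 S) → ℝ,
    (Matrix.of fun (x : Fin (rowsL (n1 S)).length × Fin (m1 S))
      (y : Fin (colsL1 (n1 S) (prog S) (n1 S - 1)).length × Fin (m1 S)) =>
        X x.1 x.2 y.1 y.2).rank ≤ 3 ∧
    P.cost (m1 S) (fun a b => (had a b : ℝ)) (W1 S) (Q1 S) X <
      P.base (m1 S) (W1 S) (Q1 S))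

end Pool.Agent.NPC.R537LR
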