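import Pool.Agent.R537.LR.Stm
import Pool.Agent.ER.Dec
import Pool.Agent.ER.Rat

/-!
# Low-rank approximation: assembly
-/

set_option autoImplicit false

namespace Pool.Agent.NPC.R537LR

open Pool.Agent.NPC Pool.Agent.NPC.ER

theorem rowsL_pos (n : ℕ) : 0 < (rowsL n).length := by
  simp [rowsL]

theorem colsL1_pos (n : ℕ) (G : List Gate) (y : ℕ) : 0 < (colsL1 n G y).length := by
  simp [colsL1]

theorem N1_pos (S : List ER.Con) : 1 ≤ N1 S :=
  Nat.mul_pos (rowsL_pos _) (colsL1_pos _ _ _)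

theorem m1_ge (S : List ER.Con) : 2 ^ 19 * N1 S ^ 2 ≤ m1 S := (Nat.lt_size_self _).le

theorem good_m1 (h : S_HAD) (S : List ER.Con) : GoodH (m1 S) (fun a b => (had a b : ℝ)) := by
  have h1 : 0 < (2 ^ 19 * N1 S ^ 2).size := by
    rw [Nat.size_pos]
    have := N1_pos S
    positivity
  obtain ⟨t, ht⟩ := Nat.exists_eq_succ_of_ne_zero h1.ne'
  have h2 := h t
  unfold m1
  rw [ht]
  exact h2

theorem big1 (S : List ER.Con) : Big (N1 S) (m1 S) (W1 S : ℝ) (Q1 S : ℝ) := by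
  have h1 : (1 : ℝ) ≤ Q1 S := by
    have : 1 ≤ Q1 S := Nat.one_le_two_pow
    exact_mod_cast this
  have h2 : ((W1 S : ℕ) : ℝ) = 2 ^ 20 * (N1 S : ℝ) ^ 3 * (m1 S : ℝ) * (Q1 S : ℝ) := by
    unfold W1
    push_cast
    ring
  exact ⟨N1_pos S, m1_ge S, h1, h2.ge⟩

theorem rank_three {I J : Type} [Fintype I] [Fintype J] [DecidableEq I] [DecidableEq J]
    (p : I → Fin 3 → ℝ) (l : J → Fin 3 → ℝ) :
    (Matrix.of fun (i : I) (j : J) => ∑ s, p i s * l j s).rank ≤ 3 := by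
  have h : (Matrix.of fun (i : I) (j : J) => ∑ s, p i s * l j s) =
      (Matrix.of p) * (Matrix.of l).transpose := by
    ext i j
    simp [Matrix.mul_apply]
  rw [h]
  refine (Matrix.rank_mul_le_left _ _).trans ?_
  have := Matrix.rank_le_card_width (Matrix.of p : Matrix I (Fin 3) ℝ)
  simpa using this

theorem core_yes (hYESC : S_YESC) (hYES : S_YES) {n y : ℕ} {G : List Gate}
    {P : Pt (Fin (rowsL n).length) (Fin (colsL1 n G y).length)} {m : ℕ} {H : ℕ → ℕ → ℝ}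
    {W Q : ℝ} (hP : Cpt n G y P) (hlt : ∀ g ∈ G, GLt n g) (hy : y < n) (hgood : GoodH m H)
    (hm : 0 < m) (hW : 0 < W) (hQ : 0 < Q) {v : ℕ → ℝ} (hv1 : ∀ i < n, |v i| ≤ 1)
    (hv2 : ∀ g ∈ G, GHolds v g) (hv3 : 0 < v y) :
    ∃ X : Fin (rowsL n).length → Fin m → Fin (colsL1 n G y).length → Fin m → ℝ,
      (Matrix.of fun (x : Fin (rowsL n).length × Fin m)
        (y : Fin (colsL1 n G y).length × Fin m) => X x.1 x.2 y.1 y.2).rank ≤ 3 ∧
      P.cost m H W Q X < P.base m W Q := by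
  classical
  obtain ⟨p, l, h1, h2, h3, h4⟩ := hYESC _ _ _ P v hP hlt hy hv1 hv2 hv3
  refine ⟨fun r _ c _ => ∑ s, p r s * l c s, ?_, ?_⟩
  · exact rank_three (fun x : Fin (rowsL n).length × Fin m => p x.1)
      (fun y : Fin (colsL1 n G y).length × Fin m => l y.1)
  · exact hYES _ _ P m H W Q p l hP.ok hgood hm hW hQ h1 h2 h3 h4

theorem core_no (hSLP : S_SLP) (hREP : S_REP) (hNOA : S_NOA) (hNOB1 : S_NOB1)
    (hNOB2 : S_NOB2) (hNOC : S_NOC) (hNOD : S_NOD) (hNOE : S_NOE) (hNOF : S_NOF)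
    (hNOG : S_NOG) {n y : ℕ} {G : List Gate}
    {P : Pt (Fin (rowsL n).length) (Fin (colsL1 n G y).length)} {m : ℕ} {H : ℕ → ℕ → ℝ}
    {W Q : ℝ} (hP : Cpt n G y P) (hff : FF n G) (hlt : ∀ g ∈ G, GLt n g) (hy : y < n)
    (hz : ∀ g ∈ G, g.1 = 1 → |g.2.2.2.2| ≤ 8)
    (hgood : GoodH m H)
    (hbig : Big ((rowsL n).length * (colsL1 n G y).length) m W Q)
    (hQe : Q = 4 ^ n * 2 ^ 20)
    {X : Fin (rowsL n).length → Fin m → Fin (colsL1 n G y).length → Fin m → ℝ}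
    (hX : (Matrix.of fun (x : Fin (rowsL n).length × Fin m)
        (y : Fin (colsL1 n G y).length × Fin m) => X x.1 x.2 y.1 y.2).rank ≤ 3)
    (hcost : P.cost m H W Q X < P.base m W Q) :
    ∃ v : ℕ → ℝ, (∀ i < n, |v i| ≤ 1) ∧ (∀ g ∈ G, GHolds v g) ∧ 0 < v y := by
  classical
  have hcard : (rowsL n).length * (colsL1 n G y).length =
      Fintype.card (Fin (rowsL n).length) * Fintype.card (Fin (colsL1 n G y).length) := by
    simp
  have hbig' := hbig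
  rw [hcard] at hbig'
  have hm0 : 0 < m := by
    have h1 := hbig.hm
    have h2 : 0 < (rowsL n).length * (colsL1 n G y).length := hbig.hn
    have h3 : 0 < 2 ^ 19 * ((rowsL n).length * (colsL1 n G y).length) ^ 2 := by positivity
    exact lt_of_lt_of_le h3 h1
  have hQ1 : 1 ≤ Q := hbig.hQ
  have hW1 : 1 ≤ W := by
    have h1 := hbig.hW
    have h2 : (1 : ℝ) ≤ (((rowsL n).length * (colsL1 n G y).length : ℕ) : ℝ) := by
      exact_mod_cast hbig.hn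
    have h3 : (1 : ℝ) ≤ m := by exact_mod_cast hm0
    have h4 : (1 : ℝ) ≤ (((rowsL n).length * (colsL1 n G y).length : ℕ) : ℝ) ^ 3 :=
      one_le_pow₀ h2
    have h5 : (1 : ℝ) ≤ 2 ^ 20 * (((rowsL n).length * (colsL1 n G y).length : ℕ) : ℝ) ^ 3 := by
      nlinarith
    have h6 : (1 : ℝ) ≤ 2 ^ 20 * (((rowsL n).length * (colsL1 n G y).length : ℕ) : ℝ) ^ 3 * m :=
      one_le_mul_of_one_le_of_one_le h5 h3
    exact (one_le_mul_of_one_le_of_one_le h6 hQ1).trans h1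
  obtain ⟨p, l, hpl, hnrm⟩ := hNOA _ _ P m H W Q X hP.ok hgood hbig' hX hcost
  have hXe : X = fun r a c b => ∑ s, p r a s * l c b s := by
    funext r a c b
    exact hpl r a c b
  rw [hXe] at hcost
  obtain ⟨b1, b2, b3, b4⟩ := hNOB1 _ _ P m _ H W Q p l hP.ok hgood hcard hbig
    hnrm hcost
  have hbd := hNOB2 _ _ P m _ H W Q p l hP.ok hgood hbig hnrm b1 b2 b3 b4
  have happ := hNOG _ _ P m H W Q p l hP.ok hgood hbig' hbd hcost
    (hNOC _ _ P m W Q p l hP.ok hm0 hW1 hQ1 hbd)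
    (hNOD _ _ P m W Q p l hP.ok hm0 hW1 hQ1 hbd)
    (hNOE _ _ P m H p l hgood hm0 hbd)
    (hNOF _ _ P m H p l hP.ok hgood hm0 hbd).1
    (hNOF _ _ P m H p l hP.ok hgood hm0 hbd).2
  generalize hM : ∑ s, mean p P.ro s * mean l P.co s = M at happ
  have h4n : (1 : ℝ) ≤ 4 ^ n := one_le_pow₀ (by norm_num)
  have hQbig : (2 : ℝ) ^ 20 ≤ Q := by rw [hQe]; nlinarith [h4n]
  have hQ12 : (2 : ℝ) ^ 12 ≤ Q := le_trans (by norm_num) hQbig
  have hM0 : 0 < M := happ.1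
  have hM12 : M ≤ 12 := by
    rw [happ.2.1, Fin.sum_univ_three]
    have hp := fun s => happ.2.2.2.1 P.ro s
    have hl := fun s => happ.2.2.2.2.1 P.co s
    have hprod : ∀ s, mean p P.ro s * mean l P.co s ≤ 4 := by
      intro s
      have e1 := hp s
      have e2 := hl s
      calc mean p P.ro s * mean l P.co s ≤ |mean p P.ro s * mean l P.co s| := le_abs_self _
        _ = |mean p P.ro s| * |mean l P.co s| := abs_mul _ _
        _ ≤ 2 * 2 := mul_le_mul e1 e2 (abs_nonneg _) (by norm_num)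
        _ = 4 := by norm_num
    have := hprod 0
    have := hprod 1
    have := hprod 2
    linarith
  obtain ⟨Y, hY1, hY2, hY3⟩ := hREP _ _ _ P Q (mean p) (mean l) M hP hlt hz hy hQ12 happ
  have hQ0 : 0 < Q := by linarith
  have hθ0 : 0 ≤ (4 / 3) * M / Q := by positivity
  have hθ1 : (4 / 3) * M / Q ≤ 1 := by
    rw [div_le_one hQ0]
    have : (16 : ℝ) ≤ 2 ^ 20 := by norm_num
    linarith
  obtain ⟨v, hv1, hv2, hv3⟩ := hSLP n G Y _ 200 hff hθ0 hθ1 (by norm_num) hY1 hY2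
  refine ⟨v, hv1, hv2, ?_⟩
  have h5 := (abs_le.1 (hv3 y hy)).2
  have h4m : (4 : ℝ) ^ y ≤ 4 ^ n := pow_le_pow_right₀ (by norm_num) hy.le
  have e1 : 200 * ((4 / 3) * M / Q) + 200 * 4 ^ y * ((4 / 3) * M / Q) ≤
      (400 * 4 ^ n) * ((4 / 3) * M / Q) := by
    have : (200 : ℝ) + 200 * 4 ^ y ≤ 400 * 4 ^ n := by linarith
    calc _ = (200 + 200 * 4 ^ y) * ((4 / 3) * M / Q) := by ring
      _ ≤ _ := mul_le_mul_of_nonneg_right this hθ0
  have e2 : (400 * 4 ^ n) * ((4 / 3) * M / Q) = (1600 / 3 / 2 ^ 20) * M := by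
    rw [hQe]
    have : (4 : ℝ) ^ n ≠ 0 := by positivity
    field_simp
    ring
  have e3 : (1600 / 3 / 2 ^ 20) * M < M := by
    have : (1600 / 3 / 2 ^ 20 : ℝ) < 1 := by norm_num
    nlinarith
  linarith

theorem asm1 (hPT : S_PT) (hFF : S_FF) (hHAD : S_HAD) (hLR : S_LR) (hSUM : S_SUM) (hC1 : S_C1)
    (hSRC1 : S_SRC1) (hSRC2 : S_SRC2) (hSLP : S_SLP) (hREP : S_REP) (hYESC : S_YESC)
    (hYES : S_YES) (hNOA : S_NOA) (hNOB1 : S_NOB1) (hNOB2 : S_NOB2) (hNOC : S_NOC)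
    (hNOD : S_NOD) (hNOE : S_NOE) (hNOF : S_NOF) (hNOG : S_NOG) (S : List ER.Con) :
    Sat S ↔ LRA1 (F1 S) := by
  obtain ⟨hff, hlt⟩ := hFF S
  have hz : ∀ g ∈ prog S, g.1 = 1 → |g.2.2.2.2| ≤ 8 := by
    intro g hg h1
    obtain ⟨k, hk, rfl⟩ := List.getElem_of_mem hg
    exact (hff.2 k hk).2.1 h1
  have hn : 0 < n1 S := by unfold n1; omega
  have hy : n1 S - 1 < n1 S := by omega
  obtain ⟨P, hP⟩ := hPT (n1 S) (prog S) (n1 S - 1) hlt hz hy
  have hgood := good_m1 hHAD S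
  have hbig : Big ((rowsL (n1 S)).length * (colsL1 (n1 S) (prog S) (n1 S - 1)).length) (m1 S)
    (W1 S : ℝ) (Q1 S : ℝ) := big1 S
  have hm0 : 0 < m1 S := by unfold m1; positivity
  have hQe : (Q1 S : ℝ) = 4 ^ n1 S * 2 ^ 20 := by
    unfold Q1
    push_cast
    rw [pow_add, pow_mul]
    norm_num
  have hQ0 : 0 < Q1 S := by unfold Q1; positivity
  have hW0 : 0 < W1 S :=
    Nat.mul_pos (Nat.mul_pos (Nat.mul_pos (Nat.two_pow_pos 20) (pow_pos (N1_pos S) 3)) hm0) hQ0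
  have hQ0' : (0 : ℝ) < Q1 S := by exact_mod_cast hQ0
  have hW0' : (0 : ℝ) < W1 S := by exact_mod_cast hW0
  rw [hC1 S P hP hLR hSUM]
  constructor
  · intro hS
    obtain ⟨v, hv1, hv2, hv3⟩ := hSRC1 S hS
    exact core_yes hYESC hYES hP hlt hy hgood hm0 hW0' hQ0' hv1 hv2 hv3
  · rintro ⟨X, hX, hcost⟩
    obtain ⟨v, hv1, hv2, hv3⟩ := core_no hSLP hREP hNOA hNOB1 hNOB2 hNOC hNOD hNOE hNOF hNOG hP
      hff hlt hy hz hgood hbig hQe hX hcost
    exact hSRC2 S v hv1 hv2 hv3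

theorem hard0 (hP0 : S_P0) (hC0 : S_C0) : ERHard (lang LRA0) := ERHard.of_sys hP0 hC0

theorem hard1 (hP1 : S_P1) (h : ∀ S : List ER.Con, Sat S ↔ LRA1 (F1 S)) : ERHard (lang LRA1) :=
  ERHard.of_sys hP1 h

/-- The rank bound is `3`. -/
theorem hard0' (hP0 : S_P0) (hC0 : S_C0) :
    ERHard (lang fun I : RMat × ℚ => LRA0 (I.1, 3, I.2)) := by
  have h : Poly (fun S : List ER.Con => ((F0 S).1, (F0 S).2.2)) :=
    Poly.pair (Poly.fst hP0) (Poly.snd (Poly.snd hP0))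
  exact ERHard.of_sys (P := fun I : RMat × ℚ => LRA0 (I.1, 3, I.2)) h fun S => hC0 S

/-- The rank bound is `3`. -/
theorem hard1' (hP1 : S_P1) (hC1 : ∀ S : List ER.Con, Sat S ↔ LRA1 (F1 S)) :
    ERHard (lang fun I : RMat × ℚ => LRA1 (I.1, 3, I.2)) := by
  have h : Poly (fun S : List ER.Con => ((F1 S).1, (F1 S).2.2)) :=
    Poly.pair (Poly.fst hP1) (Poly.snd (Poly.snd hP1))
  exact ERHard.of_sys (P := fun I : RMat × ℚ => LRA1 (I.1, 3, I.2)) h fun S => hC1 S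

/-- Membership for the rank bound `3`. -/
theorem mem0' (h : InER (lang LRA0)) : InER (lang fun I : RMat × ℚ => LRA0 (I.1, 3, I.2)) :=
  InER.of_poly_reduction h (f := fun I : RMat × ℚ => (I.1, 3, I.2))
    (Poly.pair (Poly.fst Poly.id) (Poly.pair (Poly.const 3) (Poly.snd Poly.id))) fun _ => Iff.rfl

/-- Membership for the rank bound `3`. -/
theorem mem1' (h : InER (lang LRA1)) : InER (lang fun I : RMat × ℚ => LRA1 (I.1, 3, I.2)) :=
  InER.of_poly_reduction h (f := fun I : RMat × ℚ => (I.1, 3, I.2))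
    (Poly.pair (Poly.fst Poly.id) (Poly.pair (Poly.const 3) (Poly.snd Poly.id))) fun _ => Iff.rfl

end Pool.Agent.NPC.R537LR
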