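import Pool.Agent.ER.GapSys
import Pool.Agent.ER.Hard
import Mathlib.LinearAlgebra.Matrix.Rank

/-!
# Low-rank approximation: decision problems and reductions
-/

set_option autoImplicit false

namespace Pool.Agent.NPC.R537LR

open Pool.Agent.NPC Pool.Agent.NPC.ER

/-! ### The decision problems -/

/-- A rational matrix, given by the list of its rows. -/
abbrev RMat : Type := List (List ℚ)

/-- The list of lists is an `m × n` matrix. -/
def RMat.IsMat (M : RMat) (m n : ℕ) : Prop := M.length = m ∧ ∀ r ∈ M, r.length = n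

/-- The entry of a matrix at row `i` and column `j` (counted from `0`). -/
def RMat.entry (M : RMat) (i j : ℕ) : ℚ := (M.getD i []).getD j 0

/-- The real `m × n` matrix of a list of lists. -/
noncomputable def RMat.real (M : RMat) (m n : ℕ) : Matrix (Fin m) (Fin n) ℝ :=
  Matrix.of fun i j => ((M.entry i j : ℚ) : ℝ)

/-- `‖A - B‖₀`: the number of positions where `A` and `B` differ. -/
noncomputable def dist0 {I J : Type} [Fintype I] [Fintype J] (A B : Matrix I J ℝ) : ℝ :=
  ((Finset.univ.filter fun p : I × J => A p.1 p.2 ≠ B p.1 p.2).card : ℝ)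

/-- `‖A - B‖₁`: the sum of the absolute values of the entries of `A - B`. -/
noncomputable def dist1 {I J : Type} [Fintype I] [Fintype J] (A B : Matrix I J ℝ) : ℝ :=
  ∑ i, ∑ j, |A i j - B i j|

/-- The problem `LRA₀`: the instance consists of an `m × n` matrix `A` with rational entries, a
natural number `k` and a rational `ε > 0`, and there is a real `m × n` matrix `B` of rank at most
`k` with `‖A - B‖₀ < ε`. -/
def LRA0 (I : RMat × ℕ × ℚ) : Prop :=
  ∃ m n : ℕ, I.1.IsMat m n ∧ 0 < I.2.2 ∧ ∃ B : Matrix (Fin m) (Fin n) ℝ,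
    B.rank ≤ I.2.1 ∧ dist0 (I.1.real m n) B < I.2.2

/-- The problem `LRA₁`: the instance consists of an `m × n` matrix `A` with rational entries, a
natural number `k` and a rational `ε > 0`, and there is a real `m × n` matrix `B` of rank at most
`k` with `‖A - B‖₁ < ε`. -/
def LRA1 (I : RMat × ℕ × ℚ) : Prop :=
  ∃ m n : ℕ, I.1.IsMat m n ∧ 0 < I.2.2 ∧ ∃ B : Matrix (Fin m) (Fin n) ℝ,
    B.rank ≤ I.2.1 ∧ dist1 (I.1.real m n) B < I.2.2

/-! ### Gates -/

/-- A gate `(t, i, j, k, z)`: `t = 0`: no condition; `t = 1`: `x_k = z / 8`;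
`t = 2`: `x_k = (x_i + x_j) / 2`; `t ≥ 3`: `x_k = x_i x_j`. -/
abbrev Gate : Type := ℕ × ℕ × ℕ × ℕ × ℤ

/-- Validity of a gate. -/
def GHolds (v : ℕ → ℝ) (g : Gate) : Prop :=
  if g.1 = 0 then True
  else if g.1 = 1 then v g.2.2.2.1 = (g.2.2.2.2 : ℝ) / 8
  else if g.1 = 2 then v g.2.1 + v g.2.2.1 = 2 * v g.2.2.2.1
  else v g.2.1 * v g.2.2.1 = v g.2.2.2.1

/-- The variables of the gate are smaller than `n`. -/
def GLt (n : ℕ) (g : Gate) : Prop := g.2.1 < n ∧ g.2.2.1 < n ∧ g.2.2.2.1 < n

/-! ### The partial matrix of a list of gates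

All values are in units of `1/8`. -/

/-- Names of rows: `(0, i)` anchors, `(1, 0)`: `(1, 1, 0)`, `(2, 0)`: `(0, 1, -1)`,
`(3, v)`: `(x, 1, 0)`, `(4, v)`: `(x, 0, 1)`, `(5, v)`: `(x, 1/2, 1/2)`, `(6, v)`: `(0, 1, x)`,
`(7, v)`: `(1, 0, -x)`, where `x` is the value of variable `v`. -/
abbrev RName : Type := ℕ × ℕ

/-- The known coordinates of a row (in units of `1/8`). -/
def rowv (r : RName) : List (Option ℤ) :=
  if r.1 = 0 then
    (if r.2 = 0 then [some 8, some 0, some 0]
    else if r.2 = 1 then [some 0, some 8, some 0]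
    else [some 0, some 0, some 8])
  else if r.1 = 1 then [some 8, some 8, some 0]
  else if r.1 = 2 then [some 0, some 8, some (-8)]
  else if r.1 = 3 then [none, some 8, some 0]
  else if r.1 = 4 then [none, some 0, some 8]
  else if r.1 = 5 then [none, some 4, some 4]
  else if r.1 = 6 then [some 0, some 8, none]
  else [some 8, some 0, none]

/-- A column `(t, co, zs)`: `t = 0, 1, 2`: the anchors; `t = 3`: a column with partially known
coordinates `co` and vanishing products with the rows in `zs`; `t = 4`: the objective column. -/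
abbrev Col : Type := ℕ × List (Option ℤ) × List RName

/-- The anchor columns. -/
def colA : List Col :=
  [(0, [some 8, some 0, some 0], []), (1, [some 0, some 8, some 0], []),
    (2, [some 0, some 0, some 8], [])]

/-- The columns of a variable. -/
def colV (v : ℕ) : List Col :=
  [(3, [some 8, none, none], [(2, 0), (3, v), (4, v), (5, v)]),
    (3, [none, none, some 8], [(1, 0), (6, v), (7, v)]),
    (3, [some 8, none, some 8], [(3, v), (6, v)])]

/-- The column of a gate. -/
def colG (g : Gate) : Col :=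
  if g.1 = 0 then (3, [some 8, some 0, some 0], [])
  else if g.1 = 1 then (3, [some 8, some (-g.2.2.2.2), some 0], [(3, g.2.2.2.1)])
  else if g.1 = 2 then (3, [some 8, none, none], [(3, g.2.1), (4, g.2.2.1), (5, g.2.2.2.1)])
  else (3, [none, none, some 8], [(7, g.2.1), (3, g.2.2.1), (6, g.2.2.2.1)])

/-- The rows. -/
def rowsL (n : ℕ) : List RName :=
  [(0, 0), (0, 1), (0, 2), (1, 0), (2, 0)] ++
    (List.range n).flatMap fun v => [(3, v), (4, v), (5, v), (6, v), (7, v)]

/-- The columns. -/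
def colsL (n : ℕ) (G : List Gate) : List Col :=
  colA ++ ((List.range n).flatMap colV ++ G.map colG)

/-- The known entries (in units of `1/8`). -/
def ent (r : RName) (c : Col) : Option ℤ :=
  if c.1 < 3 then (rowv r).getD c.1 none
  else if r.1 = 0 then c.2.1.getD r.2 none
  else if r ∈ c.2.2 then some 0
  else none

/-- `B` is a completion of rank at most `3`. -/
def Compl (R : List RName) (C : List Col) (B : Matrix (Fin R.length) (Fin C.length) ℝ) : Prop :=
  B.rank ≤ 3 ∧ ∀ i j q, ent (R.get i) (C.get j) = some q → B i j = (q : ℝ) / 8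

/-! ### Blow-ups -/

/-- The block matrix with `T × T` blocks. -/
def blk {ρ κ : Type} (T : ℕ) (f : ρ → κ → ℕ → ℕ → ℚ) (R : List ρ) (C : List κ) : RMat :=
  R.flatMap fun r => (List.range T).map fun a =>
    C.flatMap fun c => (List.range T).map fun b => f r c a b

/-- The entries for `p = 0`. -/
def f0 (r : RName) (c : Col) (a b : ℕ) : ℚ :=
  match ent r c with
  | some q => (q : ℚ)
  | none => 1 / ((a + b + 1 : ℕ) : ℚ)

/-- The number of unknown entries. -/
def unk (R : List RName) (C : List Col) : ℕ :=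
  (R.flatMap fun r => C.map fun c => if ent r c = none then 1 else 0).sum

/-- The number of copies for `p = 0`. -/
def T0 (R : List RName) (C : List Col) : ℕ := 9 * (R.length * C.length) ^ 4 + 1

/-- The name of the variable of the matrix for the variable `v` of a system with the list of
variables `V`. -/
def ixv (V : List ℕ) (v : ℕ) : ℕ := 2 * V.idxOf v + 1

/-- The gates of a constraint (reduction for `p = 0`): the variable `0` has the value `0`, the
auxiliary variable number `t` is `2 * t + 2`. -/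
def gcon (V : List ℕ) (c : ER.Con) (t : ℕ) : List Gate :=
  match c with
  | ER.Con.one i => [(1, 0, 0, ixv V i, 8)]
  | ER.Con.add i j k =>
    [(2, ixv V i, ixv V j, 2 * t + 2, 0), (2, ixv V k, 0, 2 * t + 2, 0)]
  | ER.Con.mul i j k => [(3, ixv V i, ixv V j, ixv V k, 0)]

/-- The gates of a system (reduction for `p = 0`). -/
def G0 (S : List ER.Con) : List Gate :=
  (1, 0, 0, 0, 0) :: S.zipIdx.flatMap fun p => gcon (svars S) p.1 p.2

/-- The number of variables (reduction for `p = 0`). -/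
def n0 (S : List ER.Con) : ℕ := 2 * (svars S).length + 2 * S.length + 3

/-- The rows of the reduction for `p = 0`. -/
def R0 (S : List ER.Con) : List RName := rowsL (n0 S)

/-- The columns of the reduction for `p = 0`. -/
def C0 (S : List ER.Con) : List Col := colsL (n0 S) (G0 S)

/-- The reduction for `p = 0`. -/
def F0 (S : List ER.Con) : RMat × ℕ × ℚ :=
  (blk (T0 (R0 S) (C0 S)) f0 (R0 S) (C0 S), 3,
    ((unk (R0 S) (C0 S) * T0 (R0 S) (C0 S) ^ 2 + 1 : ℕ) : ℚ))

/-! ### The reduction for `p = 1` -/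

/-- The bounded system. -/
def TS (S : List ER.Con) : List ER.Con := bsys S

/-- The number of input variables. -/
def Ls (S : List ER.Con) : ℕ := (svars (TS S)).length

/-- The block of gates of the constraint number `t`: `b` is its first position, `L` the number of
inputs; position `L` has the value `-1`, `L + 1` the value `-1/8`, `L + 2` the value `0`. The scaled
error of the constraint is at position `b + 3`, its square at `b + 4`, and `b + 5` is the average
of `b - 1` and `b + 4`. -/
def pblk (V : List ℕ) (L : ℕ) (c : ER.Con) (b : ℕ) : List Gate :=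
  ((match c with
  | ER.Con.one i => [(1, 0, 0, b, 0), (1, 0, 0, b + 1, 0), (1, 0, 0, b + 2, 0),
      (2, V.idxOf i, L + 1, b + 3, 0)]
  | ER.Con.add i j k => [(2, V.idxOf i, V.idxOf j, b, 0), (3, V.idxOf k, L, b + 1, 0),
      (2, b + 1, L + 2, b + 2, 0), (2, b, b + 2, b + 3, 0)]
  | ER.Con.mul i j k => [(3, V.idxOf i, V.idxOf j, b, 0), (3, V.idxOf k, L, b + 1, 0),
      (1, 0, 0, b + 2, 0), (2, b, b + 1, b + 3, 0)]) : List Gate) ++
  ([(3, b + 3, b + 3, b + 4, 0), (2, b - 1, b + 4, b + 5, 0)] : List Gate)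

/-- The first position after the blocks. -/
def eS (S : List ER.Con) : ℕ := Ls S + 3 + 6 * (TS S).length

/-- The number of squarings. -/
def KS (S : List ER.Con) : ℕ := 11 * (TS S).length + 9

/-- The straight-line program. -/
def prog (S : List ER.Con) : List Gate :=
  (List.range (Ls S)).map (fun k => ((0, 0, 0, k, 0) : Gate)) ++
  ([(1, 0, 0, Ls S, -8), (1, 0, 0, Ls S + 1, -1), (1, 0, 0, Ls S + 2, 0)] ++
  ((TS S).zipIdx.flatMap (fun p => pblk (svars (TS S)) (Ls S) p.1 (Ls S + 3 + 6 * p.2)) ++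
  ((1, 0, 0, eS S, 4) ::
  ((List.range (KS S)).map (fun j => ((3, eS S + j, eS S + j, eS S + j + 1, 0) : Gate)) ++
  [(3, eS S - 1, Ls S, eS S + KS S + 1, 0),
    (2, eS S + KS S, eS S + KS S + 1, eS S + KS S + 2, 0)]))))

/-- The number of variables of the program. -/
def n1 (S : List ER.Con) : ℕ := eS S + KS S + 3

/-- Feed-forward lists of gates with `n` gates. -/
def FF (n : ℕ) (G : List Gate) : Prop :=
  G.length = n ∧ ∀ k (hk : k < G.length), (G[k]).2.2.2.1 = k ∧
    ((G[k]).1 = 1 → |(G[k]).2.2.2.2| ≤ 8) ∧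
    (2 ≤ (G[k]).1 → (G[k]).2.1 < k ∧ (G[k]).2.2.1 < k)

/-- The columns of the reduction for `p = 1`. -/
def colsL1 (n : ℕ) (G : List Gate) (y : ℕ) : List Col :=
  colsL n G ++ [(4, [some 8, some 0, some 0], [(3, y)])]

/-- The known entries for `p = 1` (in units of `1/8`). -/
def ent1 (r : RName) (c : Col) : Option ℤ :=
  if c.1 = 4 ∧ r ∈ c.2.2 then some 8 else ent r c

/-- The weights of the rows. -/
def wtR (W : ℕ) (r : RName) : ℕ := if r.1 = 0 then W else 1

/-- The weights of the columns. -/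
def wtC (W Q : ℕ) (c : Col) : ℕ := if c.1 < 3 then W * Q else if c.1 = 4 then 1 else Q

/-- The size of the masks. -/
def msk (r : RName) (c : Col) : ℕ := if r.1 = 0 ∨ c.1 < 3 then 1 else 4

/-- Parity of the number of common binary digits. -/
def hbit (a b : ℕ) : Bool :=
  (List.zipWith (fun x y : Bool => x && y) a.bits b.bits).foldl xor false

/-- A balanced Hadamard matrix. -/
def had (a b : ℕ) : ℤ :=
  (if a % 2 = b % 2 then 1 else -1) * (if hbit (a / 2) (b / 2) then -1 else 1)

/-- The entries for `p = 1`. -/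
def f1 (W Q : ℕ) (r : RName) (c : Col) (a b : ℕ) : ℚ :=
  match ent1 r c with
  | some q => ((((wtR W r * wtC W Q c : ℕ) : ℤ) * q : ℤ) : ℚ)
  | none => ((((wtR W r * wtC W Q c * 8 * msk r c : ℕ) : ℤ) * had a b : ℤ) : ℚ)

/-- The sum of the weights of the masks. -/
def msum (W Q : ℕ) (R : List RName) (C : List Col) : ℕ :=
  (R.flatMap fun r => C.map fun c =>
    if ent1 r c = none then wtR W r * wtC W Q c * msk r c else 0).sum

/-- The rows of the reduction for `p = 1`. -/
def R1 (S : List ER.Con) : List RName := rowsL (n1 S)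

/-- The columns of the reduction for `p = 1`. -/
def C1 (S : List ER.Con) : List Col := colsL1 (n1 S) (prog S) (n1 S - 1)

/-- The number of positions. -/
def N1 (S : List ER.Con) : ℕ := (R1 S).length * (C1 S).length

/-- The number of copies for `p = 1` (a power of two). -/
def m1 (S : List ER.Con) : ℕ := 2 ^ (2 ^ 19 * N1 S ^ 2).size

/-- The weight `Q`. -/
def Q1 (S : List ER.Con) : ℕ := 2 ^ (2 * n1 S + 20)

/-- The weight `W`. -/
def W1 (S : List ER.Con) : ℕ := 2 ^ 20 * N1 S ^ 3 * m1 S * Q1 S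

/-- The reduction for `p = 1`. -/
def F1 (S : List ER.Con) : RMat × ℕ × ℚ :=
  (blk (m1 S) (f1 (W1 S) (Q1 S)) (R1 S) (C1 S), 3,
    ((8 * (msum (W1 S) (Q1 S) (R1 S) (C1 S) + 1) * m1 S ^ 2 : ℕ) : ℚ))

/-! ### The abstract setting for `p = 1` -/

/-- A pattern: `tR r = some i` if `r` is the anchor row number `i`, `tC c = some j` if `c` is the
anchor column number `j`; `rv`, `cv` are the known coordinates of the rows and columns; `z` marks
the products that are known to vanish; `(ro, co)` is the objective. -/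
structure Pt (R C : Type) where
  tR : R → Option (Fin 3)
  tC : C → Option (Fin 3)
  ar : Fin 3 → R
  ac : Fin 3 → C
  ro : R
  co : C
  rv : R → Fin 3 → Option ℝ
  cv : C → Fin 3 → Option ℝ
  z : R → C → Bool

/-- Validity of a pattern. -/
structure Pt.OK {R C : Type} (P : Pt R C) : Prop where
  tR_iff : ∀ r i, P.tR r = some i ↔ r = P.ar i
  tC_iff : ∀ c j, P.tC c = some j ↔ c = P.ac j
  ro_none : P.tR P.ro = none
  co_none : P.tC P.co = none
  rv_ar : ∀ i s, P.rv (P.ar i) s = some (if i = s then 1 else 0)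
  cv_ac : ∀ j s, P.cv (P.ac j) s = some (if j = s then 1 else 0)
  cv_co : ∀ s, P.cv P.co s = some (if s = 0 then 1 else 0)
  z_co : ∀ r, P.z r P.co = false
  rv_le : ∀ r s x, P.rv r s = some x → |x| ≤ 1
  cv_le : ∀ c s x, P.cv c s = some x → |x| ≤ 1
  ctr : ∀ r s, P.tR r = none → P.rv r s = none → (∀ s', s' ≠ s → P.rv r s' ≠ none) ∧
    ∃ c, P.tC c = none ∧ c ≠ P.co ∧ P.z r c = true ∧ P.cv c s = some 1
  ctc : ∀ c s, P.tC c = none → P.cv c s = none → ∃ r, P.tR r = none ∧ P.z r c = true ∧
    P.rv r s = some 1 ∧ ∀ s', s' ≠ s → P.cv c s' = none → P.rv r s' = some 0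

section

open Classical in
/-- The known entries of a pattern. -/
noncomputable def Pt.E {R C : Type} (P : Pt R C) (r : R) (c : C) : Option ℝ :=
  match P.tC c with
  | some j => P.rv r j
  | none =>
    match P.tR r with
    | some i => P.cv c i
    | none => if r = P.ro ∧ c = P.co then some 1 else if P.z r c = true then some 0 else none

open Classical in
/-- The weights. -/
noncomputable def Pt.w {R C : Type} (P : Pt R C) (W Q : ℝ) (r : R) (c : C) : ℝ :=
  (match P.tR r with
    | some _ => W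
    | none => 1) *
  (match P.tC c with
    | some _ => W * Q
    | none => if c = P.co then 1 else Q)

/-- The sizes of the masks. -/
noncomputable def Pt.N {R C : Type} (P : Pt R C) (r : R) (c : C) : ℝ :=
  match P.tC c with
  | some _ => 1
  | none =>
    match P.tR r with
    | some _ => 1
    | none => 4

/-- The target entries. -/
noncomputable def Pt.A {R C : Type} (P : Pt R C) (H : ℕ → ℕ → ℝ) (r : R) (c : C) (a b : ℕ) : ℝ :=
  match P.E r c with
  | some q => q
  | none => P.N r c * H a b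

/-- The cost. -/
noncomputable def Pt.cost {R C : Type} [Fintype R] [Fintype C] (P : Pt R C) (m : ℕ)
    (H : ℕ → ℕ → ℝ) (W Q : ℝ) (X : R → Fin m → C → Fin m → ℝ) : ℝ :=
  ∑ r, ∑ c, P.w W Q r c * ∑ a : Fin m, ∑ b : Fin m, |P.A H r c a b - X r a c b|

open Classical in
/-- The baseline. -/
noncomputable def Pt.base {R C : Type} [Fintype R] [Fintype C] (P : Pt R C) (m : ℕ)
    (W Q : ℝ) : ℝ :=
  ((∑ r, ∑ c, if P.E r c = none then P.w W Q r c * P.N r c else 0) + 1) * (m : ℝ) ^ 2

/-- Balanced sign matrices of small norm. -/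
structure GoodH (m : ℕ) (H : ℕ → ℕ → ℝ) : Prop where
  sign : ∀ a b, H a b = 1 ∨ H a b = -1
  row : ∀ a < m, ∑ b ∈ Finset.range m, H a b = 0
  col : ∀ b < m, ∑ a ∈ Finset.range m, H a b = 0
  nrm : ∀ u v : ℕ → ℝ, |∑ a ∈ Finset.range m, ∑ b ∈ Finset.range m, H a b * u a * v b| ≤
    √(2 * m) * √(∑ a ∈ Finset.range m, u a ^ 2) * √(∑ b ∈ Finset.range m, v b ^ 2)

end

/-- Conclusion of the analysis: a normalized approximate solution of rank three. -/
def Pt.Appr {R C : Type} (P : Pt R C) (Q : ℝ) (p : R → Fin 3 → ℝ) (l : C → Fin 3 → ℝ)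
    (M : ℝ) : Prop :=
  0 < M ∧ M = ∑ s, p P.ro s * l P.co s ∧ (∀ j s, l (P.ac j) s = if j = s then 1 else 0) ∧
    (∀ r s, |p r s| ≤ 2) ∧ (∀ c s, |l c s| ≤ 2) ∧
    (∀ r c x, ¬ (r = P.ro ∧ c = P.co) → P.E r c = some x →
      |x - ∑ s, p r s * l c s| ≤ (4 / 3) * M / Q) ∧
    (∀ r c, P.E r c = none → (P.tR r ≠ none ∨ P.tC c ≠ none) →
      |∑ s, p r s * l c s| ≤ 1 + (4 / 3) * M / Q)

/-- The deviation of the block `(r, c)` from the known value (`0` for unknown entries and for the
objective). -/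
noncomputable def Pt.dk {R C : Type} (P : Pt R C) (m : ℕ)
    (p : R → Fin m → Fin 3 → ℝ) (l : C → Fin m → Fin 3 → ℝ) (r : R) (c : C) : ℝ :=
  open Classical in
  if r = P.ro ∧ c = P.co then 0 else
  match P.E r c with
  | some x => ∑ a, ∑ b, |x - ∑ s, p r a s * l c b s|
  | none => 0

/-- The mean of the copies of a row (or of a column). -/
noncomputable def mean {R : Type} {m : ℕ} (p : R → Fin m → Fin 3 → ℝ) (r : R) (s : Fin 3) : ℝ :=
  (∑ a, p r a s) / m

/-- The column coordinates measured by the anchor rows. -/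
noncomputable def Pt.q {R C : Type} (P : Pt R C) {m : ℕ}
    (p : R → Fin m → Fin 3 → ℝ) (l : C → Fin m → Fin 3 → ℝ) (c : C) (b : Fin m) (i : Fin 3) : ℝ :=
  ∑ s, mean p (P.ar i) s * l c b s

/-- The a priori bounds. -/
structure Pt.Bd {R C : Type} (P : Pt R C) (m : ℕ) (p : R → Fin m → Fin 3 → ℝ)
    (l : C → Fin m → Fin 3 → ℝ) : Prop where
  nrm : ∀ j s, mean l (P.ac j) s = if j = s then 1 else 0
  p2 : ∀ r a s, |p r a s| ≤ 2
  l2 : ∀ c b s, |l c b s| ≤ 2
  y : ∀ i j, |mean p (P.ar i) j - if i = j then 1 else 0| ≤ 1 / 100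
  pk : ∀ r a s x, P.rv r s = some x → |p r a s - x| ≤ 1 / 100
  qk : ∀ c b i x, P.cv c i = some x → |P.q p l c b i - x| ≤ 1 / 100

/-- The size conditions on the parameters, `n` being the number of positions. -/
structure Big (n : ℕ) (m : ℕ) (W Q : ℝ) : Prop where
  hn : 1 ≤ n
  hm : 2 ^ 19 * n ^ 2 ≤ m
  hQ : 1 ≤ Q
  hW : 2 ^ 20 * (n : ℝ) ^ 3 * m * Q ≤ W

/-- The error of a gate. -/
noncomputable def GErr (v : ℕ → ℝ) (g : Gate) : ℝ :=
  if g.1 = 0 then 0
  else if g.1 = 1 then |v g.2.2.2.1 - (g.2.2.2.2 : ℝ) / 8|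
  else if g.1 = 2 then |(v g.2.1 + v g.2.2.1) / 2 - v g.2.2.2.1|
  else |v g.2.1 * v g.2.2.1 - v g.2.2.2.1|

/-- The pattern `P` is the pattern of the rows `rowsL n` and of the columns `colsL1 n G y`. -/
structure Cpt (n : ℕ) (G : List Gate) (y : ℕ)
    (P : Pt (Fin (rowsL n).length) (Fin (colsL1 n G y).length)) : Prop where
  ok : P.OK
  E : ∀ r c, P.E r c = (ent1 ((rowsL n).get r) ((colsL1 n G y).get c)).map fun q => (q : ℝ) / 8
  w : ∀ (W Q : ℕ) r c, P.w W Q r c =
    ((wtR W ((rowsL n).get r) * wtC W Q ((colsL1 n G y).get c) : ℕ) : ℝ)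
  N : ∀ r c, P.N r c = (msk ((rowsL n).get r) ((colsL1 n G y).get c) : ℝ)
  tR : ∀ r, P.tR r ≠ none ↔ ((rowsL n).get r).1 = 0
  tC : ∀ c, P.tC c ≠ none ↔ ((colsL1 n G y).get c).1 < 3
  ar : ∀ i, (rowsL n).get (P.ar i) = (0, (i : ℕ))
  ac : ∀ j, ((colsL1 n G y).get (P.ac j)).1 = (j : ℕ)
  ro : (rowsL n).get P.ro = (3, y)
  co : (colsL1 n G y).get P.co = (4, [some 8, some 0, some 0], [(3, y)])

end Pool.Agent.NPC.R537LR
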